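import Pool.Agent.Helper84.MT.Line

/-! END, VOLUME FORM: canonical forms of a system of lines are canonical forms of the system of leaves of its lines;
the entropy of the point over a label. -/

set_option autoImplicit false

namespace Pool.Agent.Helper7.EVM

open Finset Filter Topology Matrix Pool.Agent.Helper69.RK Pool.Agent.Helper31.EC Pool.Agent.Helper31.EC.Sp
open Pool.Agent.Helper40.EL Pool.Agent.Helper89.LX Pool.Agent.Helper3.LF Pool.Agent.Helper84.MT
open Pool.Agent.Helper95.LF (PdM)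

noncomputable section

variable {S : Sp} {m : ℕ}

/-- a family of two conditions -/
theorem Admf_iff (s : Sys S m) (D : ℕ) (c η : ℝ) (k : ℕ) (x : FD (S.F k) (Mon (m + 1) D)) :
    (gaq (lQ s) D).Admf ((ofSys s).cnd c) η k x ↔ (gau s D).Adm (cA s c) (cB s) η k x := by
  have e1 : ∀ i : Fin 1, (ofSys s).cnd c (some i) k = cA s c k := fun _ => rfl
  have e2 : (ofSys s).cnd c none k = cB s k := congrFun (pcd_le s) k
  constructor
  · rintro ⟨h1, h2, h3, h4⟩
    refine ⟨?_, ?_, h2, h3, h4⟩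
    · have h5 := h1 (some 0)
      rw [e1] at h5
      exact h5
    · have h5 := h1 none
      rw [e2] at h5
      exact h5
  · rintro ⟨h1, h1', h2, h3, h4⟩
    refine ⟨?_, h2, h3, h4⟩
    intro i
    rcases i with _ | i
    · rw [e2]; exact h1'
    · rw [e1]; exact h1

theorem Adf_iff (s : Sys S m) (D : ℕ) (c : ℝ) (x : ∀ k, FD (S.F k) (Mon (m + 1) D)) :
    (gaq (lQ s) D).Adf ((ofSys s).cnd c) x ↔ (gau s D).Ad (cA s c) (cB s) x := by
  constructor
  · intro h η hη
    filter_upwards [h η hη] with k hk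
    exact (Admf_iff s D c η k (x k)).1 hk
  · intro h η hη
    filter_upwards [h η hη] with k hk
    exact (Admf_iff s D c η k (x k)).2 hk

theorem Optf_iff (s : Sys S m) (D : ℕ) (c : ℝ) (x : ∀ k, FD (S.F k) (Mon (m + 1) D)) :
    (gaq (lQ s) D).Optf ((ofSys s).cnd c) x ↔ (gau s D).Opt (cA s c) (cB s) x := by
  constructor
  · intro h
    exact ⟨(Adf_iff s D c x).1 h.1, fun y hy => h.2 y ((Adf_iff s D c y).2 hy)⟩
  · intro h
    exact ⟨(Adf_iff s D c x).2 h.1, fun y hy => h.2 y ((Adf_iff s D c y).1 hy)⟩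

/-- canonical forms of the system of leaves = canonical forms of the system of lines -/
theorem IsCan_iff (s : Sys S m) (D : ℕ) (c : ℝ) (x : ∀ k, FD (S.F k) (Mon (m + 1) D)) :
    (ofSys s).IsCan D c x ↔ IsCan s D c x := by
  constructor
  · intro h
    exact ⟨(Optf_iff s D c x).1 h.1, (IsKap_iff_ofSys s c _).1 h.2⟩
  · intro h
    exact ⟨(Optf_iff s D c x).2 h.1, (IsKap_iff_ofSys s c _).2 h.2⟩

/-- the point `(t, P)` as an element of the entropy lattice -/
theorem lQ_dg (s : Sys S m) : (lQ s).dg 1 = s.P.dg 1 ⊔ s.T := by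
  have h1 : (lQ s).dg 1 = cl ((lQ s).bdd 1).toInf := io_eq ((lQ s).bdd 1)
  have h2 : pcd (lQ s) = rpI ((lQ s).bdd 1).toInf := rfl
  have h3 : cB s = rpI (Inf.sup (s.IP 1) (s.It 1)) := cB_eq s
  have h4 : rpI ((lQ s).bdd 1).toInf = rpI (Inf.sup (s.IP 1) (s.It 1)) := by rw [← h2, ← h3, pcd_le]
  have h5 : lB s = cl (Inf.sup (s.IP 1) (s.It 1)) := (cl_B s).symm
  have h6 : lB s = s.P.dg 1 ⊔ s.T := rfl
  have h7 : PLe (rpI ((lQ s).bdd 1).toInf) (rpI ((lQ s).bdd 1).toInf) := PLe_rpI.2 le_rfl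
  rw [← h6, h5, h1]
  apply le_antisymm
  · rw [← PLe_rpI, ← h4]
    exact h7
  · rw [← PLe_rpI, ← h4]
    exact h7

/-- over a label the point has at most the entropy of `P` given `t`, plus one -/
theorem H_lQ_le (s : Sys S m) (l : Lab S) :
    H (up1 l ((lQ s).dg 1)) ≤ 1 + h (up1 l (s.P.dg 1)) (up1 l s.T) := by
  rw [lQ_dg, up1_sup, sup_comm, H_chain]
  have h1 := H_up1_le l s.T
  rw [s.H_T] at h1
  linarith

end

end Pool.Agent.Helper7.EVM
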