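import Pool.Agent.Helper7.EVM.Vol

/-! END, VOLUME FORM: the statement `ST (m + 1)` of the multi-type layer (over a label `kappa_0` the point fills the
volume of its hull) implies the exact form of the Kakeya conjecture in `ℝ ^ (m + 1)`. -/

set_option autoImplicit false

namespace Pool.Agent.Helper7.EVM

open Pool.Agent.Helper69.RK Pool.Agent.Helper31.EC Pool.Agent.Helper31.EC.Sp
open Pool.Agent.Helper40.EL Pool.Agent.Helper89.LX Pool.Agent.Helper89.LS Pool.Agent.Helper84.MT
open Pool.Agent.Helper3.LF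

/-- the statement for one type of lines implies the regular volume form for systems of lines -/
theorem rst_of_STm {D m : ℕ} (hst : STm D (m + 1) (lin 1) (Fin 1)) : Pool.Agent.Helper59.EV.ST D m := by
  intro S s x hx
  have h1 : vol (lQ s) D x ≤ H (up1 (fun k => (x k).l) ((lQ s).dg 1)) :=
    hst S (ofSys s) x ((IsCan_iff s D 0 x).2 hx)
  have h2 := rvol_le s hx
  have h3 := H_lQ_le s (fun k => (x k).l)
  have h4 : h (up1 (Pool.Agent.Helper59.EV.lb x) (s.P.dg 1)) (up1 (Pool.Agent.Helper59.EV.lb x) s.T) =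
    h (up1 (fun k => (x k).l) (s.P.dg 1)) (up1 (fun k => (x k).l) s.T) := rfl
  rw [h4]
  linarith

/-- `ST (m + 1)` implies the exact form of the Kakeya conjecture in `ℝ ^ (m + 1)` -/
theorem ek_of_STm {m : ℕ} (hst : ST (m + 1)) : EK m := by
  obtain ⟨D₁, hD⟩ := hst 1 1
  exact Pool.Agent.Helper59.EV.ek_of_st (le_max_right D₁ 1) (rst_of_STm (hD _ (le_max_left _ _)))

end Pool.Agent.Helper7.EVM
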