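import Pool.Agent.Helper7.EVM.Can
import Pool.Agent.Helper84.MT.Fis
import Pool.Agent.Helper3.LF.Win
import Pool.Agent.Helper59.EV.Chain

/-! END, VOLUME FORM: over a label of the window `0` the full volume of an admissible form has the rate of its regular
volume plus one: the height fills its line, therefore the derivative of the form along the line is bounded by the form
(Remez), and the determinant of the gradient matrix loses nothing in this direction (Fischer). -/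

set_option autoImplicit false

namespace Pool.Agent.Helper7.EVM

open Finset Filter Topology Matrix Pool.Agent.Helper69.RK Pool.Agent.Helper31.EC Pool.Agent.Helper31.EC.Sp
open Pool.Agent.Helper40.EL Pool.Agent.Helper89.LX Pool.Agent.Helper84.MT
open Pool.Agent.Helper3.LF
open Pool.Agent.Helper95.LF
open Pool.Agent.Helper48.NS (GG one_le_GG GG_le_phi)
open Pool.Agent.Helper59.EV (rvol Ad_typ sum_split_le dl_sq_inv)

noncomputable section

variable {S : Sp} {m : ℕ}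

/-- the exponent of a number below a cap -/
theorem lg_le {G c φ C n : ℝ} (hn : 0 < n) (j : ℕ) (hG : 1 ≤ G) (hc : 0 ≤ c) (hφ : 0 ≤ φ)
    (h : G ≤ (c * (2 ^ (2 * n) * φ)) ^ j) (hB : c * φ ≤ 2 ^ (C * n)) :
    Real.logb 2 G / (2 * n) ≤ j * (C + 2) / 2 := by
  have h1 : c * (2 ^ (2 * n) * φ) ≤ 2 ^ ((C + 2) * n) := by
    have e1 : (2 : ℝ) ^ ((C + 2) * n) = 2 ^ (C * n) * 2 ^ (2 * n) := by
      rw [← Real.rpow_add (by norm_num)]
      congr 1
      ring
    rw [e1]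
    have h2 := mul_le_mul_of_nonneg_right hB (show (0 : ℝ) ≤ 2 ^ (2 * n) by positivity)
    linarith
  have h2 : G ≤ (2 ^ ((C + 2) * n)) ^ j := h.trans (pow_le_pow_left₀ (by positivity) h1 j)
  have h3 := Real.logb_le_logb_of_le (b := 2) (by norm_num) (by linarith) h2
  rw [Real.logb_pow, Real.logb_rpow (by norm_num) (by norm_num)] at h3
  rw [div_le_iff₀ (by positivity)]
  linarith

/-- admissible forms are below the cap at the points -/
theorem phi_cap (s : Sys S m) {D : ℕ} {A B : Part S} {x : ∀ k, FD (S.F k) (Mon (m + 1) D)}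
    (hx : (gau s D).Ad A B x) (c : ℝ) (hc : 0 ≤ c) :
    ∀ᶠ k in UF, ∀ ω, (x k).l.T.μ ω ≠ 0 →
      c * phi (S.dl 1 k) ((x k).g ω) (ptf s k ((x k).l.p.π ω)) ≤ 2 ^ (((gau s D).C + 2) * (S.F k).n) := by
  obtain ⟨K, hK, hb⟩ := ptf_bd s
  have hnn := nn_one (m + 1) D
  have h0 : (0 : ℝ) ≤ nn (m + 1) D * Fintype.card (Mon (m + 1) D) := by positivity
  have hsub : S.Sub (fun k => c * (nn (m + 1) D * Fintype.card (Mon (m + 1) D) * (K k + 1) ^ (2 * D))) :=
    (S.Sub_const hc).mul ((S.Sub_const h0).mul (Sub_pow' (hK.add (S.Sub_const zero_le_one)) _))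
  filter_upwards [hx 1 one_pos, hb, hsub.eventually_le one_pos, hK.1] with k h1 h2 h3 h4 ω hω
  have hn := (S.F k).pos
  have h5 := (h1.2.2.1 ω hω).1
  have h6 := phi_le ((x k).g ω) ((gau s D).cp k) h5.2.2 (by unfold Gau.cp; positivity) (S.dl 1 k) (K k + 1)
    (S.dl_pos 1 k).le (by linarith) (ptf s k ((x k).l.p.π ω))
    (fun i => add_le_add (h2 _ ((x k).l.p.supp ω hω) i) (dl_one_le S k))
  have e1 : (2 : ℝ) ^ (((gau s D).C + 2) * (S.F k).n) = 2 ^ (1 * (S.F k).n) * (gau s D).cp k := by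
    unfold Gau.cp
    rw [← Real.rpow_add (by norm_num)]
    congr 1
    ring
  rw [e1]
  have h7 := mul_le_mul_of_nonneg_left h6 hc
  refine h7.trans ?_
  have h8 : c * (nn (m + 1) D * Fintype.card (Mon (m + 1) D) * (K k + 1) ^ (2 * D)) ≤ 2 ^ (1 * (S.F k).n) := by
    linarith
  have h9 := mul_le_mul_of_nonneg_right h8 (show 0 ≤ (gau s D).cp k by unfold Gau.cp; positivity)
  linarith

/-- the exponent of the full volume -/
def gq (s : Sys S m) {D : ℕ} (x : ∀ k, FD (S.F k) (Mon (m + 1) D)) (k : ℕ) (ω : (x k).l.T.Ω) : ℝ :=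
  Real.logb 2 (GQ (S.dl 1 k) ((x k).g ω) (ptf s k ((x k).l.p.π ω))) / (2 * (S.F k).n)

/-- the exponent of the regular volume -/
def gg (s : Sys S m) {D : ℕ} (x : ∀ k, FD (S.F k) (Mon (m + 1) D)) (k : ℕ) (ω : (x k).l.T.Ω) : ℝ :=
  Real.logb 2 (GG (S.dl 1 k) ((x k).g ω) (ptf s k ((x k).l.p.π ω))) / (2 * (S.F k).n)

theorem gq_bd (s : Sys S m) {D : ℕ} {A B : Part S} {x : ∀ k, FD (S.F k) (Mon (m + 1) D)}
    (hx : (gau s D).Ad A B x) : ∃ M : ℝ, 0 ≤ M ∧ ∀ᶠ k in UF, ∀ ω, (x k).l.T.μ ω ≠ 0 →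
      0 ≤ gq s x k ω ∧ gq s x k ω ≤ M := by
  have hC := (gau s D).C0
  have hc := Pool.Agent.Helper84.MT.cU_one (m + 1) D
  refine ⟨((m + 1 : ℕ) : ℝ) * ((gau s D).C + 2 + 2) / 2, by positivity, ?_⟩
  filter_upwards [hx 1 one_pos, phi_cap s hx (Pool.Agent.Helper84.MT.cU (m + 1) D) (by linarith)] with k h1 h2 ω hω
  have hn := (S.F k).pos
  have h5 := (h1.2.2.1 ω hω).1
  have h6 := one_le_GQ (S.dl 1 k) h5.1 h5.psd.2 (ptf s k ((x k).l.p.π ω))
  have h7 := one_le_phi ((x k).g ω) h5.2.1 (S.dl 1 k) (ptf s k ((x k).l.p.π ω))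
  have h8 := GQ_le_phi (S.dl 1 k) (S.dl_pos 1 k) (dl_one_le S k) ((x k).g ω) h5.pdM _ h7
  rw [dl_sq_inv] at h8
  constructor
  · exact div_nonneg (Real.logb_nonneg (by norm_num) h6) (by positivity)
  · exact lg_le hn (m + 1) h6 (by linarith) (by linarith) h8 (h2 ω hω)

theorem gg_bd (s : Sys S m) {D : ℕ} {A B : Part S} {x : ∀ k, FD (S.F k) (Mon (m + 1) D)}
    (hx : (gau s D).Ad A B x) : ∃ M : ℝ, 0 ≤ M ∧ ∀ᶠ k in UF, ∀ ω, (x k).l.T.μ ω ≠ 0 →
      0 ≤ gg s x k ω ∧ gg s x k ω ≤ M := by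
  have hC := (gau s D).C0
  have hc := Pool.Agent.Helper48.NS.cU_one m D
  refine ⟨(m : ℝ) * ((gau s D).C + 2 + 2) / 2, by positivity, ?_⟩
  filter_upwards [hx 1 one_pos, phi_cap s hx (Pool.Agent.Helper48.NS.cU m D) (by linarith)] with k h1 h2 ω hω
  have hn := (S.F k).pos
  have h5 := (h1.2.2.1 ω hω).1
  have h6 := one_le_GG (S.dl 1 k) h5.1 h5.psd.2 (ptf s k ((x k).l.p.π ω))
  have h7 := one_le_phi ((x k).g ω) h5.2.1 (S.dl 1 k) (ptf s k ((x k).l.p.π ω))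
  have h8 := GG_le_phi (S.dl 1 k) (S.dl_pos 1 k) (dl_one_le S k) ((x k).g ω) h5.pdM _ h7
  rw [dl_sq_inv] at h8
  constructor
  · exact div_nonneg (Real.logb_nonneg (by norm_num) h6) (by positivity)
  · exact lg_le hn m h6 (by linarith) (by linarith) h8 (h2 ω hω)

theorem avg_UB {x : ∀ k, FLab (S.F k)} {f : ∀ k, (x k).T.Ω → ℝ} {M : ℝ}
    (h : ∀ᶠ k in UF, ∀ ω, (x k).T.μ ω ≠ 0 → 0 ≤ f k ω ∧ f k ω ≤ M) :
    UB (fun k => ∑ ω, (x k).T.μ ω * f k ω) := by
  apply UB_of_nonneg_le (C := M)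
  · filter_upwards [h] with k hk
    apply Finset.sum_nonneg
    intro ω _
    by_cases h0 : (x k).T.μ ω = 0
    · rw [h0, zero_mul]
    · exact mul_nonneg ((x k).T.nn ω) (hk ω h0).1
  · filter_upwards [h] with k hk
    exact sum_mul_le _ _ fun ω h0 => (hk ω h0).2

/-- the points of the line of a point at distance at most one -/
theorem ptf_line (s : Sys S m) (k : ℕ) (ω : (S.F k).Ω) (u : ℝ) :
    (fun i => ptf s k ω i + u * (Fin.cons 1 (s.x.v k ω) : Fin (m + 1) → ℝ) i) =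
      Pool.Agent.Helper3.LF.pl (s.a.v k ω) (s.x.v k ω) (s.t.v k ω 0 + u) := by
  funext i
  refine Fin.cases ?_ (fun j => ?_) i
  · show s.t.v k ω 0 + u * 1 = s.t.v k ω 0 + u
    ring
  · show s.a.v k ω j + s.t.v k ω 0 * s.x.v k ω j + u * s.x.v k ω j =
      s.a.v k ω j + (s.t.v k ω 0 + u) * s.x.v k ω j
    ring

theorem cons_dot {y : Fin m → ℝ} {K : ℝ} (h : ∀ i, |y i| ≤ K) :
    (Fin.cons 1 y : Fin (m + 1) → ℝ) ⬝ᵥ (Fin.cons 1 y : Fin (m + 1) → ℝ) ≤ 1 + m * K ^ 2 := by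
  unfold dotProduct
  rw [Fin.sum_univ_succ]
  have h1 : ∀ i ∈ (Finset.univ : Finset (Fin m)), (Fin.cons 1 y : Fin (m + 1) → ℝ) i.succ *
      (Fin.cons 1 y : Fin (m + 1) → ℝ) i.succ ≤ K ^ 2 := by
    intro i _
    rw [Fin.cons_succ, ← sq, ← sq_abs]
    exact pow_le_pow_left₀ (abs_nonneg _) (h i) 2
  have h2 := Finset.sum_le_card_nsmul _ _ _ h1
  rw [Finset.card_univ, Fintype.card_fin, nsmul_eq_mul] at h2
  rw [Fin.cons_zero]
  linarith

/-- the full volume loses only one with respect to the regular volume -/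
theorem ul_gq_le (s : Sys S m) {D : ℕ} {A B : Part S} {x : ∀ k, FD (S.F k) (Mon (m + 1) D)}
    (hx : (gau s D).Ad A B x) (hl : DMc s 0 (fun k => (x k).l)) :
    ul (fun k => ∑ ω, (x k).l.T.μ ω * gq s x k ω) ≤ ul (fun k => ∑ ω, (x k).l.T.μ ω * gg s x k ω) := by
  obtain ⟨K, hK, hKt⟩ := Ad_typ hx
  have hPd : ∀ᶠ k in UF, ∀ ω, (x k).l.T.μ ω ≠ 0 → PdM ((x k).g ω) := by
    filter_upwards [hx 1 one_pos] with k h1 ω hω using (h1.2.2.1 ω hω).1.pdM
  obtain ⟨K', hK', hT⟩ := win_phi (s := s) (D := D) (c := 0) le_rfl zero_lt_one hl (fun k => (x k).g) hPd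
    (Eventually.of_forall fun k ω ω' h1 h2 h3 h4 => ((x k).meas ω ω' h1 h2 h3 h4).1) 0 le_rfl (fun _ => 1)
    (S.Sub_const zero_le_one)
  obtain ⟨C, hC0, hC⟩ := Jq_line (m + 1) D
  obtain ⟨Kx, hKx, hbx⟩ := s.x.bd
  obtain ⟨M, hM0, hM⟩ := gq_bd s hx
  obtain ⟨M', hM0', hM'⟩ := gg_bd s hx
  set Bk : ℕ → ℝ := fun k => (1 + m * (Kx k) ^ 2) + C * (K' k * K k) with hBk
  have hBs : S.Sub Bk := by
    have h1 : S.Sub (fun k => (m : ℝ) * (Kx k) ^ 2) := (S.Sub_const (Nat.cast_nonneg m)).mul (Sub_pow' hKx 2)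
    exact ((S.Sub_const zero_le_one).add h1).add ((S.Sub_const hC0).mul (hK'.mul hK))
  set E : ∀ k, (x k).l.T.Ω → Prop := fun k ω => sph s D k ((x k).l.p.π ω) ((x k).g ω) ≤ K k ∧
    ∀ r, |r - s.t.v k ((x k).l.p.π ω) 0| ≤ 1 * S.dl (0 - 0) k →
      phi (S.dl 1 k) ((x k).g ω) (Pool.Agent.Helper3.LF.pl (s.a.v k ((x k).l.p.π ω)) (s.x.v k ((x k).l.p.π ω)) r) ≤
        K' k * 2 ^ ((2 * D : ℕ) * 0 * (S.F k).n) * sph s D k ((x k).l.p.π ω) ((x k).g ω) with hE
  have hEt : Tendsto (fun k => mass (res (x k).l.T.μ (fun ω => ¬ E k ω))) UF (𝓝 0) := by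
    have h1 := hKt.add hT
    rw [add_zero] at h1
    refine tendsto_of_tendsto_of_tendsto_of_le_of_le tendsto_const_nhds h1
      (fun k => (x k).l.T.pb_nonneg _) (fun k => ?_)
    refine le_trans (FSp.pb_mono _ (E' := fun ω => (¬ sph s D k ((x k).l.p.π ω) ((x k).g ω) ≤ K k) ∨
      ¬ ∀ r, |r - s.t.v k ((x k).l.p.π ω) 0| ≤ 1 * S.dl (0 - 0) k →
      phi (S.dl 1 k) ((x k).g ω) (Pool.Agent.Helper3.LF.pl (s.a.v k ((x k).l.p.π ω)) (s.x.v k ((x k).l.p.π ω)) r) ≤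
        K' k * 2 ^ ((2 * D : ℕ) * 0 * (S.F k).n) * sph s D k ((x k).l.p.π ω) ((x k).g ω)) ?_) (pb_or _ _ _)
    intro ω _ h3
    rw [hE] at h3
    beta_reduce at h3
    rwa [not_and_or] at h3
  have hU1 : UB (fun k => ∑ ω, (x k).l.T.μ ω * gq s x k ω) := avg_UB (x := fun k => (x k).l) hM
  have hU2 : UB (fun k => ∑ ω, (x k).l.T.μ ω * gg s x k ω) := avg_UB (x := fun k => (x k).l) hM'
  set ee : ℕ → ℝ := fun k => Real.logb 2 (Bk k + 2) / (S.F k).n +
    M * mass (res (x k).l.T.μ (fun ω => ¬ E k ω)) with hee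
  have hee0 : Tendsto ee UF (𝓝 0) := by
    have h2 := hBs.2.add (hEt.const_mul M)
    simpa using h2
  have hle : ∀ᶠ k in UF, ∑ ω, (x k).l.T.μ ω * gq s x k ω ≤ ∑ ω, (x k).l.T.μ ω * gg s x k ω + ee k := by
    filter_upwards [hM, hM', hx 1 one_pos, hbx, hKx.1, hK'.1, hK.1, hBs.1] with k h1 h2 h3 h4 h5 h6 h7 h8
    have hn := (S.F k).pos
    have hlog : 0 ≤ Real.logb 2 (Bk k + 2) / (S.F k).n :=
      div_nonneg (Real.logb_nonneg (by norm_num) (by linarith)) hn.le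
    have h9 := sum_split_le (F := (x k).l.T) (fun ω => gq s x k ω - gg s x k ω) (E k)
      (Real.logb 2 (Bk k + 2) / (S.F k).n) M hlog hM0 (by
        intro ω hω hEω
        rw [hE] at hEω
        obtain ⟨hE1, hE2⟩ := hEω
        have c1 := (h3.2.2.1 ω hω).1
        set p := (x k).l.p.π ω with hp
        set e : Fin (m + 1) → ℝ := Fin.cons 1 (s.x.v k p) with he
        have c2 : e ⬝ᵥ (Jq (S.dl 1 k) ((x k).g ω) (ptf s k p) *ᵥ e) ≤ C * (K' k * K k) := by
          apply hC (S.dl 1 k) ((x k).g ω) c1.pdM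
          intro u hu0 hu1
          rw [he, ptf_line]
          have c3 := hE2 (s.t.v k p 0 + u) (by
            rw [add_sub_cancel_left, abs_of_nonneg hu0, sub_zero, S.dl_zero, one_mul]
            exact hu1)
          refine c3.trans ?_
          rw [mul_zero, zero_mul, Real.rpow_zero, mul_one]
          exact mul_le_mul_of_nonneg_left hE1 h6
        have c4 : e ⬝ᵥ e ≤ 1 + m * (Kx k) ^ 2 := cons_dot (h4 p ((x k).l.p.supp ω hω))
        have c5 := GQ_le_dir (S.dl 1 k) c1.1 c1.psd.2 (ptf s k p) e (by rw [he, Fin.cons_zero])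
        have c6 := one_le_GG (S.dl 1 k) c1.1 c1.psd.2 (ptf s k p)
        have c7 := one_le_GQ (S.dl 1 k) c1.1 c1.psd.2 (ptf s k p)
        have c8 : GQ (S.dl 1 k) ((x k).g ω) (ptf s k p) ≤ (Bk k + 2) * GG (S.dl 1 k) ((x k).g ω) (ptf s k p) := by
          refine c5.trans (mul_le_mul_of_nonneg_right ?_ (by linarith))
          rw [hBk]
          beta_reduce
          linarith
        have c9 := Real.logb_le_logb_of_le (b := 2) (by norm_num) (by linarith) c8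
        rw [Real.logb_mul (by linarith) (by linarith)] at c9
        have c10 : 0 ≤ Real.logb 2 (Bk k + 2) := Real.logb_nonneg (by norm_num) (by linarith)
        show Real.logb 2 (GQ (S.dl 1 k) ((x k).g ω) (ptf s k p)) / (2 * (S.F k).n) -
          Real.logb 2 (GG (S.dl 1 k) ((x k).g ω) (ptf s k p)) / (2 * (S.F k).n) ≤ _
        rw [← sub_div, div_le_div_iff₀ (by positivity) hn]
        nlinarith) (by
        intro ω hω
        have c1 := (h1 ω hω).2
        have c2 := (h2 ω hω).1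
        linarith)
    have e3 : ∑ ω, (x k).l.T.μ ω * (gq s x k ω - gg s x k ω) =
        ∑ ω, (x k).l.T.μ ω * gq s x k ω - ∑ ω, (x k).l.T.μ ω * gg s x k ω := by
      rw [← Finset.sum_sub_distrib]
      exact Finset.sum_congr rfl fun ω _ => by ring
    rw [e3] at h9
    rw [hee]
    beta_reduce
    linarith
  have h1 := ul_tendsto hU1
  have h2 := ul_tendsto hU2
  have h3 := h2.add hee0
  rw [add_zero] at h3
  exact le_of_tendsto_of_tendsto h1 h3 hle

/-- regular volume plus one is at most the volume -/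
theorem rvol_le (s : Sys S m) {D : ℕ} {x : ∀ k, FD (S.F k) (Mon (m + 1) D)} (hx : IsCan s D 0 x) :
    rvol s D x + 1 ≤ vol (lQ s) D x := by
  have h1 := ul_gq_le s hx.1.1 hx.2.dm
  have h2 : rvol s D x = m - ul (fun k => ∑ ω, (x k).l.T.μ ω * gg s x k ω) := rfl
  have h3 : vol (lQ s) D x = ((m + 1 : ℕ) : ℝ) - ul (fun k => ∑ ω, (x k).l.T.μ ω * gq s x k ω) := rfl
  rw [h2, h3]
  push_cast
  linarith

end

end Pool.Agent.Helper7.EVM
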